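import Pool.Agent.H22.QA.FinAb

/-!
Converse transfer of decidability (Q2 of MP_db217e_lc): if the theory of the maximal abelian extension `ℚ_p^ab` of
`ℚ_p` in the language of valued rings is decidable, then the theory of the perfect hull of `𝔽_p^ac((t))` in the
language of valued rings with a constant for `t` is decidable.
-/

set_option autoImplicit false

namespace Pool.Agent.Results.MP_db217e_lc.AbTransfer

open Pool.Agent.H92.Tilt Pool.Agent.H22.QA

theorem result (p : ℕ) [Fact p.Prime] :
    DecidableTheory 0 (QAb p) (OPadic p (QAb p)) Fin.elim0 →
      DecidableTheory 1 (FPerfK (AlgebraicClosure (ZMod p))) (OPerfK p (AlgebraicClosure (ZMod p)))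
        (fun _ => tPerfK (AlgebraicClosure (ZMod p))) :=
  mainAb p

end Pool.Agent.Results.MP_db217e_lc.AbTransfer
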