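import Pool.Agent.H92.Tilt.Fin

/-!
Converse transfer of decidability (Q1 of MP_db217e_lc): if the theory of `ℚ_p(p^(1/p^∞))` or of
`ℚ_p(ζ_{p^∞})` in the language of valued rings is decidable, then the theory of the perfect hull of
`𝔽_p((t))` in the language of valued rings with a constant for `t` is decidable.
-/

set_option autoImplicit false

namespace Pool.Agent.Results.MP_db217e_lc.ConverseTransfer

open Pool.Agent.H92.Tilt

theorem result (p : ℕ) [Fact p.Prime] :
    (∀ r : ℕ → PadicAlgCl p, r 0 = (p : PadicAlgCl p) → (∀ n, r (n + 1) ^ p = r n) →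
      DecidableTheory 0 (KRoot p r) (OPadic p (KRoot p r)) Fin.elim0 →
      DecidableTheory 1 (FPerf p) (OPerf p) (fun _ => tPerf p)) ∧
    (DecidableTheory 0 (KCyc p) (OPadic p (KCyc p)) Fin.elim0 →
      DecidableTheory 1 (FPerf p) (OPerf p) (fun _ => tPerf p)) :=
  main p

end Pool.Agent.Results.MP_db217e_lc.ConverseTransfer
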